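import Mathlib

/-!
# Eventual non-injectivity of the elementary symmetric partition map, `k ≥ 4`

For every `k ≥ 4` there is `M` such that for every `n ≥ M` there are two distinct partitions of `n` with
exactly `2 k` parts which have the same multiset of products of `k` parts.

Idea. If `A`, `B` are multisets of `k` positive integers with the same sum `s`, the same product, and the same
sum `m` of the `β / a` (`β` a common multiple), then for all `t, L ≥ 1` the multisets `t A ∪ (β L / B)` and
`t B ∪ (β L / A)` of `2 k` integers have the sum `t s + L m`, and `x ↦ t β L / x` exchanges them; since the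
product of all the elements is `(t β L) ^ k`, complementary sets of `k` elements show that the products of `k`
elements are the same. If `s` and `m` are coprime every large `n` is of the form `t s + L m`. For `k = 4` one
takes `A = {16, 21, 40, 42}`, `B = {15, 28, 28, 48}`, and for `k > 4` one adds common elements.
-/

set_option autoImplicit false

namespace Pool.Agent.Results.MP_b67aea_co.EventuallyNotInjective

open Finset

/-- `pre_k`: the multiset of the products of `k` parts. -/
def pre (k : ℕ) (l : Multiset ℕ) : Multiset ℕ := (l.powersetCard k).map Multiset.prod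

lemma pre_map {ι : Type} [Fintype ι] (k : ℕ) (f : ι → ℕ) :
    pre k ((univ : Finset ι).val.map f)
      = (powersetCard k (univ : Finset ι)).val.map (fun S => ∏ i ∈ S, f i) := by
  unfold pre
  rw [Multiset.powersetCard_map, ← Finset.map_val_val_powersetCard, Multiset.map_map, Multiset.map_map]
  rfl

lemma pre_compl_fun {ι : Type} [Fintype ι] [DecidableEq ι] (k : ℕ) (hcard : Fintype.card ι = 2 * k)
    (f h : ι → ℕ) (c : ℕ) (hc : 0 < c) (hfh : ∀ i, f i * h i = c) (hprod : ∏ i, f i = c ^ k) :
    pre k ((univ : Finset ι).val.map f) = pre k ((univ : Finset ι).val.map h) := by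
  rw [pre_map, pre_map]
  have h1 : ∀ S ∈ (powersetCard k (univ : Finset ι)).val,
      (∏ i ∈ S, h i) = ∏ i ∈ Sᶜ, f i := by
    intro S hS
    have hS' : S.card = k := (mem_powersetCard.1 hS).2
    have h2 : (∏ i ∈ S, f i) * (∏ i ∈ S, h i) = c ^ k := by
      rw [← prod_mul_distrib, prod_congr rfl (fun i _ => hfh i), prod_const, hS']
    have h3 : (∏ i ∈ S, f i) * (∏ i ∈ Sᶜ, f i) = c ^ k := by
      rw [prod_mul_prod_compl, hprod]
    have h4 : 0 < ∏ i ∈ S, f i := by
      apply prod_pos
      intro i _
      exact Nat.pos_of_ne_zero (fun h0 => by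
        have := hfh i
        rw [h0, zero_mul] at this
        omega)
    exact Nat.eq_of_mul_eq_mul_left h4 (h2.trans h3.symm)
  rw [Multiset.map_congr rfl h1]
  have h5 : (powersetCard k (univ : Finset ι)).map ⟨compl, compl_injective⟩
      = powersetCard k (univ : Finset ι) := by
    ext S
    simp only [mem_map, mem_powersetCard, Function.Embedding.coeFn_mk, subset_univ, true_and]
    constructor
    · rintro ⟨T, hT, rfl⟩
      rw [card_compl, hcard, hT]
      omega
    · intro hS
      refine ⟨Sᶜ, ?_, compl_compl S⟩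
      rw [card_compl, hcard, hS]
      omega
  conv_lhs => rw [← h5]
  rw [Finset.map_val, Multiset.map_map]
  rfl

lemma pre_compl (k : ℕ) (l : Multiset ℕ) (hcard : Multiset.card l = 2 * k) (c : ℕ) (hc : 0 < c)
    (hdvd : ∀ x ∈ l, x ∣ c) (hprod : l.prod = c ^ k) :
    pre k l = pre k (l.map (fun x => c / x)) := by
  induction l using Quotient.inductionOn with
  | h L =>
    change pre k (L : Multiset ℕ) = pre k ((L : Multiset ℕ).map _)
    change Multiset.card (L : Multiset ℕ) = _ at hcard
    change ∀ x ∈ (L : Multiset ℕ), _ at hdvd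
    change (L : Multiset ℕ).prod = _ at hprod
    have h1 : (L : Multiset ℕ) = (univ : Finset (Fin L.length)).val.map L.get := by
      rw [Fin.univ_val_map, List.ofFn_get]
    rw [h1] at hprod hcard hdvd ⊢
    rw [Multiset.map_map]
    refine pre_compl_fun k ?_ _ _ c hc (fun i => ?_) hprod
    · simpa using hcard
    · have : L.get i ∣ c := hdvd _ (Multiset.mem_map_of_mem _ (mem_univ i))
      exact Nat.mul_div_cancel' this

/-- two multisets with the properties described at the top -/
structure Good (k : ℕ) (A B : Multiset ℕ) (β s m : ℕ) : Prop where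
  cardA : Multiset.card A = k
  cardB : Multiset.card B = k
  posA : ∀ x ∈ A, 0 < x
  posB : ∀ x ∈ B, 0 < x
  ne : A ≠ B
  pos : 0 < β
  dvdA : ∀ x ∈ A, x ∣ β
  dvdB : ∀ x ∈ B, x ∣ β
  prod : A.prod = B.prod
  sumA : A.sum = s
  sumB : B.sum = s
  invA : (A.map (fun x => β / x)).sum = m
  invB : (B.map (fun x => β / x)).sum = m
  cop : Nat.Coprime s m

lemma Good.symm {k : ℕ} {A B : Multiset ℕ} {β s m : ℕ} (h : Good k A B β s m) : Good k B A β s m :=
  ⟨h.cardB, h.cardA, h.posB, h.posA, h.ne.symm, h.pos, h.dvdB, h.dvdA, h.prod.symm, h.sumB, h.sumA,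
    h.invB, h.invA, h.cop⟩

/-- the multiset `t A ∪ (β L / B)` -/
def mkS (A B : Multiset ℕ) (β t L : ℕ) : Multiset ℕ :=
  A.map (fun x => t * x) + B.map (fun x => β / x * L)

section

variable {k : ℕ} {A B : Multiset ℕ} {β s m : ℕ} (h : Good k A B β s m)

include h

lemma mk_card (t L : ℕ) : Multiset.card (mkS A B β t L) = 2 * k := by
  rw [mkS, Multiset.card_add, Multiset.card_map, Multiset.card_map, h.cardA, h.cardB]
  omega

lemma mk_sum (t L : ℕ) : (mkS A B β t L).sum = t * s + L * m := by
  rw [mkS, Multiset.sum_add, Multiset.sum_map_mul_left, Multiset.sum_map_mul_right, h.invB,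
    Multiset.map_id', h.sumA, mul_comm m L]

lemma prod_div : (B.map (fun x => β / x)).prod * B.prod = β ^ k := by
  have h1 : (B.map (fun x => β / x)).prod * (B.map (fun x => x)).prod
      = (B.map (fun x => β / x * x)).prod := Multiset.prod_map_mul.symm
  rw [Multiset.map_id'] at h1
  rw [h1, Multiset.map_congr rfl (fun x hx => Nat.div_mul_cancel (h.dvdB x hx)), Multiset.map_const',
    Multiset.prod_replicate, h.cardB]

lemma mk_prod (t L : ℕ) : (mkS A B β t L).prod = (t * β * L) ^ k := by
  rw [mkS, Multiset.prod_add, Multiset.prod_map_mul, Multiset.prod_map_mul, Multiset.map_const',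
    Multiset.map_const', Multiset.prod_replicate, Multiset.prod_replicate, h.cardA, h.cardB,
    Multiset.map_id', h.prod, mul_pow, mul_pow, ← prod_div h]
  ring

lemma mk_mem_dvd (t L : ℕ) : ∀ x ∈ mkS A B β t L, x ∣ t * β * L := by
  intro x hx
  rw [mkS, Multiset.mem_add, Multiset.mem_map, Multiset.mem_map] at hx
  rcases hx with ⟨a, ha, rfl⟩ | ⟨b, hb, rfl⟩
  · exact (mul_dvd_mul_left t (h.dvdA a ha)).mul_right L
  · exact mul_dvd_mul_right ((Nat.div_dvd_of_dvd (h.dvdB b hb)).mul_left t) L

lemma mk_map {t L : ℕ} (ht : 0 < t) (hL : 0 < L) :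
    (mkS A B β t L).map (fun x => t * β * L / x) = mkS B A β t L := by
  rw [mkS, mkS, Multiset.map_add, Multiset.map_map, Multiset.map_map, add_comm]
  congr 1
  · apply Multiset.map_congr rfl
    intro x hx
    obtain ⟨y, hy⟩ := h.dvdB x hx
    have hx0 := h.posB x hx
    have hy0 : 0 < y := Nat.pos_of_ne_zero (fun h0 => by
      have := h.pos
      rw [hy, h0, mul_zero] at this
      omega)
    show t * β * L / (β / x * L) = t * x
    rw [hy, Nat.mul_div_cancel_left y hx0]
    apply Nat.div_eq_of_eq_mul_left (Nat.mul_pos hy0 hL)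
    ring
  · apply Multiset.map_congr rfl
    intro x hx
    obtain ⟨y, hy⟩ := h.dvdA x hx
    have hx0 := h.posA x hx
    show t * β * L / (t * x) = β / x * L
    rw [hy, Nat.mul_div_cancel_left y hx0]
    apply Nat.div_eq_of_eq_mul_left (Nat.mul_pos ht hx0)
    ring

lemma mk_pre {t L : ℕ} (ht : 0 < t) (hL : 0 < L) :
    pre k (mkS A B β t L) = pre k (mkS B A β t L) := by
  rw [← mk_map h ht hL]
  exact pre_compl k _ (mk_card h t L) _ (Nat.mul_pos (Nat.mul_pos ht h.pos) hL) (mk_mem_dvd h t L)
    (mk_prod h t L)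

lemma mk_pos {t L : ℕ} (ht : 0 < t) (hL : 0 < L) : ∀ x ∈ mkS A B β t L, 0 < x := by
  intro x hx
  rw [mkS, Multiset.mem_add, Multiset.mem_map, Multiset.mem_map] at hx
  rcases hx with ⟨a, ha, rfl⟩ | ⟨b, hb, rfl⟩
  · exact Nat.mul_pos ht (h.posA a ha)
  · exact Nat.mul_pos (Nat.div_pos (Nat.le_of_dvd h.pos (h.dvdB b hb)) (h.posB b hb)) hL

lemma filter_mk {t L : ℕ} (hL : t * s < L) :
    (mkS A B β t L).filter (fun x => x < L) = A.map (fun x => t * x) := by
  rw [mkS, Multiset.filter_add]
  have h1 : (A.map (fun x => t * x)).filter (fun x => x < L) = A.map (fun x => t * x) := by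
    rw [Multiset.filter_eq_self]
    intro y hy
    obtain ⟨x, hx, rfl⟩ := Multiset.mem_map.1 hy
    have : x ≤ s := by
      rw [← h.sumA]
      exact Multiset.le_sum_of_mem hx
    exact lt_of_le_of_lt (Nat.mul_le_mul_left t this) hL
  have h2 : (B.map (fun x => β / x * L)).filter (fun x => x < L) = 0 := by
    rw [Multiset.filter_eq_nil]
    intro y hy
    obtain ⟨x, hx, rfl⟩ := Multiset.mem_map.1 hy
    have : 0 < β / x := Nat.div_pos (Nat.le_of_dvd h.pos (h.dvdB x hx)) (h.posB x hx)
    have := Nat.le_mul_of_pos_left L this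
    omega
  rw [h1, h2, add_zero]

lemma mk_ne {t L : ℕ} (ht : 0 < t) (hL : t * s < L) : mkS A B β t L ≠ mkS B A β t L := by
  intro h0
  have h1 := congrArg (Multiset.filter (fun x => x < L)) h0
  rw [filter_mk h hL, filter_mk h.symm hL] at h1
  exact h.ne (Multiset.map_injective (fun a b hab => Nat.eq_of_mul_eq_mul_left ht hab) h1)

end

lemma coin {s m n : ℕ} (hm : 0 < m) (h : Nat.Coprime s m) (hn : m * s + m * (m * s + 1) ≤ n) :
    ∃ t L : ℕ, 0 < t ∧ t * s < L ∧ n = t * s + L * m := by
  obtain ⟨t, ht0, htm, ht⟩ : ∃ t, 0 < t ∧ t ≤ m ∧ t * s ≡ n [MOD m] := by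
    rcases Nat.lt_or_ge 1 m with h1 | h1
    · obtain ⟨u, -, hu⟩ := Nat.exists_mul_mod_eq_one_of_coprime h h1
      have h2 : (n * u) * s ≡ n [MOD m] := by
        have h3 : s * u ≡ 1 [MOD m] := by
          rw [Nat.ModEq, hu, Nat.mod_eq_of_lt h1]
        have := h3.mul_left n
        rw [mul_one] at this
        calc n * u * s = n * (s * u) := by ring
          _ ≡ n [MOD m] := this
      rcases Nat.eq_zero_or_pos ((n * u) % m) with h3 | h3
      · refine ⟨m, hm, le_rfl, ?_⟩
        have h4 : m ≡ n * u [MOD m] := by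
          rw [Nat.ModEq, h3, Nat.mod_self]
        exact (h4.mul_right s).trans h2
      · refine ⟨(n * u) % m, h3, (Nat.mod_lt _ hm).le, ?_⟩
        exact ((Nat.mod_modEq (n * u) m).mul_right s).trans h2
    · have : m = 1 := by omega
      subst this
      exact ⟨1, one_pos, le_rfl, Nat.modEq_one⟩
  have h5 : t * s ≤ m * s := Nat.mul_le_mul_right s htm
  have h6 : t * s ≤ n := by omega
  obtain ⟨L, hL⟩ := (Nat.modEq_iff_dvd' h6).1 ht
  refine ⟨t, L, ht0, ?_, ?_⟩
  · by_contra h7
    push Not at h7
    have h8 : L ≤ m * s := h7.trans h5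
    have h9 : m * L ≤ m * (m * s) := Nat.mul_le_mul_left m h8
    have h10 : m * (m * s + 1) = m * (m * s) + m := by ring
    omega
  · rw [mul_comm L m, ← hL]
    omega

theorem Good.main {k : ℕ} {A B : Multiset ℕ} {β s m : ℕ} (h : Good k A B β s m) (hm : 0 < m)
    {n : ℕ} (hn : m * s + m * (m * s + 1) ≤ n) :
    ∃ p q : n.Partition, p ≠ q ∧ Multiset.card p.parts = 2 * k ∧ Multiset.card q.parts = 2 * k ∧
      pre k p.parts = pre k q.parts := by
  obtain ⟨t, L, ht, hL, rfl⟩ := coin hm h.cop hn
  have hL0 : 0 < L := by omega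
  refine ⟨⟨mkS A B β t L, fun {i} hi => mk_pos h ht hL0 i hi, mk_sum h t L⟩,
    ⟨mkS B A β t L, fun {i} hi => mk_pos h.symm ht hL0 i hi, mk_sum h.symm t L⟩, ?_, mk_card h t L,
    mk_card h.symm t L, mk_pre h ht hL0⟩
  intro h0
  exact mk_ne h ht hL (congrArg Nat.Partition.parts h0)

/-- the multisets of the case `k = 4` -/
def A4 : Multiset ℕ := {16, 21, 40, 42}

/-- the multisets of the case `k = 4` -/
def B4 : Multiset ℕ := {15, 28, 28, 48}

lemma good4 : Good 4 A4 B4 1680 119 267 := by
  constructor <;> decide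

lemma map_congr_mul (A : Multiset ℕ) (x : ℕ) (hA : ∀ a ∈ A, a ∣ 1680) :
    (A.map (fun a => 1680 * x / a)).sum = (A.map (fun a => 1680 / a)).sum * x := by
  rw [← Multiset.sum_map_mul_right]
  congr 1
  apply Multiset.map_congr rfl
  intro a ha
  exact (Nat.div_mul_right_comm (hA a ha) x).symm

lemma sumX (A : Multiset ℕ) (j x : ℕ) (hx : 0 < x) (hA : ∀ a ∈ A, a ∣ 1680)
    (hi : (A.map (fun a => 1680 / a)).sum = 267) :
    ((A + (Multiset.replicate j 1 + {x})).map (fun a => 1680 * x / a)).sum
      = 267 * x + j * (1680 * x) + 1680 := by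
  rw [Multiset.map_add, Multiset.map_add, Multiset.sum_add, Multiset.sum_add, map_congr_mul A x hA, hi,
    Multiset.map_replicate, Multiset.sum_replicate, Multiset.map_singleton, Multiset.sum_singleton,
    Nat.div_one, Nat.mul_div_cancel _ hx, smul_eq_mul]
  ring

lemma exists_good (k : ℕ) (hk : 4 ≤ k) : ∃ A B β s m, Good k A B β s m ∧ 0 < m := by
  rcases Nat.eq_or_lt_of_le hk with rfl | hk'
  · exact ⟨A4, B4, 1680, 119, 267, good4, by norm_num⟩
  obtain ⟨j, rfl⟩ : ∃ j, k = 5 + j := ⟨k - 5, by omega⟩
  obtain ⟨x, hx⟩ : ∃ x, x = 1 + (119 + j) * ((267 + 1680 * j) * (119 + j) - 1681) := ⟨_, rfl⟩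
  have hC : 1681 ≤ (267 + 1680 * j) * (119 + j) := by nlinarith
  have hx0 : 0 < x := by omega
  have g := good4
  refine ⟨A4 + (Multiset.replicate j 1 + {x}), B4 + (Multiset.replicate j 1 + {x}), 1680 * x,
    119 + (j + x), 267 * x + j * (1680 * x) + 1680, ?_, by omega⟩
  have hpos : ∀ C : Multiset ℕ, (∀ a ∈ C, 0 < a) →
      ∀ a ∈ C + (Multiset.replicate j 1 + {x}), 0 < a := by
    intro C hC a ha
    rw [Multiset.mem_add, Multiset.mem_add, Multiset.mem_singleton] at ha
    rcases ha with ha | ha | ha
    · exact hC a ha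
    · rw [Multiset.eq_of_mem_replicate ha]
      exact one_pos
    · omega
  have hdvd : ∀ C : Multiset ℕ, (∀ a ∈ C, a ∣ 1680) →
      ∀ a ∈ C + (Multiset.replicate j 1 + {x}), a ∣ 1680 * x := by
    intro C hC a ha
    rw [Multiset.mem_add, Multiset.mem_add, Multiset.mem_singleton] at ha
    rcases ha with ha | ha | ha
    · exact (hC a ha).mul_right x
    · rw [Multiset.eq_of_mem_replicate ha]
      exact one_dvd _
    · rw [ha]
      exact dvd_mul_left x 1680
  have hsum : ∀ C : Multiset ℕ, C.sum = 119 →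
      (C + (Multiset.replicate j 1 + {x})).sum = 119 + (j + x) := by
    intro C hC
    rw [Multiset.sum_add, Multiset.sum_add, hC, Multiset.sum_replicate, Multiset.sum_singleton,
      smul_eq_mul, mul_one]
  have hcard : ∀ C : Multiset ℕ, Multiset.card C = 4 →
      Multiset.card (C + (Multiset.replicate j 1 + {x})) = 5 + j := by
    intro C hC
    rw [Multiset.card_add, Multiset.card_add, hC, Multiset.card_replicate, Multiset.card_singleton]
    omega
  exact
    { cardA := hcard A4 g.cardA
      cardB := hcard B4 g.cardB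
      posA := hpos A4 g.posA
      posB := hpos B4 g.posB
      ne := fun h0 => g.ne (add_right_cancel h0)
      pos := by omega
      dvdA := hdvd A4 g.dvdA
      dvdB := hdvd B4 g.dvdB
      prod := by rw [Multiset.prod_add, g.prod, ← Multiset.prod_add]
      sumA := hsum A4 g.sumA
      sumB := hsum B4 g.sumB
      invA := sumX A4 j x hx0 g.dvdA g.invA
      invB := sumX B4 j x hx0 g.dvdB g.invB
      cop := by
        obtain ⟨C, hC1⟩ : ∃ C, C = (267 + 1680 * j) * (119 + j) - 1681 := ⟨_, rfl⟩
        have hC' : (267 + 1680 * j) * (119 + j) = 1680 + (C + 1) := by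
          generalize (267 + 1680 * j) * (119 + j) = y at hC hC1 ⊢
          omega
        have hx' : x = 1 + (119 + j) * C := by rw [hx, hC1]
        have e1 : 119 + (j + x) = 1 + (119 + j) * (C + 1) := by
          rw [hx']
          ring
        have e2 : (267 + 1680 * j) * (119 + (j + x))
            = (267 * x + j * (1680 * x) + 1680) + (C + 1) := by
          have : (267 + 1680 * j) * (119 + (j + x))
              = (267 + 1680 * j) * (119 + j) + (267 + 1680 * j) * x := by ring
          rw [this, hC']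
          ring
        have h1 := Nat.gcd_dvd_left (119 + (j + x)) (267 * x + j * (1680 * x) + 1680)
        have h2 := Nat.gcd_dvd_right (119 + (j + x)) (267 * x + j * (1680 * x) + 1680)
        set d := Nat.gcd (119 + (j + x)) (267 * x + j * (1680 * x) + 1680) with hd
        have h3 : d ∣ C + 1 := by
          have h4 : d ∣ (267 * x + j * (1680 * x) + 1680) + (C + 1) := by
            rw [← e2]
            exact h1.mul_left _
          exact (Nat.dvd_add_right h2).1 h4
        have h5 : d ∣ 1 := by
          rw [e1] at h1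
          exact (Nat.dvd_add_left (h3.mul_left (119 + j))).1 h1
        exact Nat.dvd_one.1 h5 }

theorem result (k : ℕ) (hk : 4 ≤ k) : ∃ M : ℕ, ∀ n : ℕ, M ≤ n →
    ∃ p q : n.Partition, p ≠ q ∧ Multiset.card p.parts = 2 * k ∧ Multiset.card q.parts = 2 * k ∧
      pre k p.parts = pre k q.parts := by
  obtain ⟨A, B, β, s, m, h, hm⟩ := exists_good k hk
  exact ⟨m * s + m * (m * s + 1), fun n hn => h.main hm hn⟩

end Pool.Agent.Results.MP_b67aea_co.EventuallyNotInjective
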